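import Pool.Agent.helper5.SYM.SpecB

/-!
# Row sy:IV0 (MP_45d809_mp): involutions without fixed darts
-/

set_option autoImplicit false

namespace Pool.Agent.SYM
open Finset CT Polynomial

theorem IV0_l0 {V : Type} : Function.Injective (l0 : V → V × Fin 3) := by
  intro a b h
  exact congrArg Prod.fst h

/-- seven vertices, three of them fixed -/
theorem IV0_exc (V : Type) [Fintype V] [DecidableEq V] (G : SimpleGraph V) (σ : G ≃g G)
    (h4 : FourRegular G) (h7 : Fintype.card V = 7) (hfree : ∀ d : G.Dart, sd σ d ≠ d)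
    (J : Finset V) (hJ : ∀ v, v ∈ J ↔ σ v = v) (hJ3 : J.card = 3) : HasTwins G := by
  classical
  have hadj : ∀ u ∈ J, ∀ w, G.Adj u w ↔ w ∉ J := by
    intro u hu
    have h1 : (univ.filter fun w => G.Adj u w) ⊆ Jᶜ := by
      intro w hw
      rw [Finset.mem_compl]
      intro hwJ
      have huw : G.Adj u w := (Finset.mem_filter.1 hw).2
      refine hfree ⟨(u, w), huw⟩ ?_
      apply SimpleGraph.Dart.ext
      exact Prod.ext ((hJ u).1 hu) ((hJ w).1 hwJ)
    have h2 : (univ.filter fun w => G.Adj u w).card = 4 := by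
      have h3 := Nat.subtype_card (p := fun w => G.Adj u w) (univ.filter fun w => G.Adj u w)
        (fun w => by simp)
      rw [← h3]
      exact h4 u
    have h3 : (univ.filter fun w => G.Adj u w) = Jᶜ := by
      refine Finset.eq_of_subset_of_card_le h1 ?_
      rw [h2, Finset.card_compl, h7, hJ3]
    intro w
    rw [← Finset.mem_compl, ← h3]
    simp
  obtain ⟨u, hu, u', hu', huu'⟩ := Finset.one_lt_card.1 (show 1 < J.card by omega)
  exact ⟨u, u', huu', fun w => by rw [hadj u hu, hadj u' hu']⟩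

theorem IV0 (hEQA : EQA_stmt) (hYF1 : YF1_stmt) (hBG1 : BG1_stmt) (hEVB : EVB_stmt)
    (hEV3 : EV3_stmt) : IV0_stmt := by
  classical
  intro V _ _ G σ h4 h7 hN3 hnt hinv hfree
  have hne0 : Nonempty V := Fintype.card_pos_iff.1 (by omega)
  obtain ⟨R, J, K, C, e, α, hJ, hK, hRn, hR1, hCn, hCR, hAdm, hcount⟩ := hBG1 V G σ h4 hinv
  have hK0 : K = ∅ := Finset.eq_empty_of_forall_notMem fun v hv => by
    obtain ⟨-, ⟨d, -, hd⟩, -⟩ := (hK v).1 hv
    exact hfree d hd
  subst hK0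
  rw [Finset.image_empty] at hAdm
  simp only [Finset.image_empty] at hcount
  have hJ' : ∀ v, v ∈ J ↔ σ v = v := by
    intro v
    rw [hJ v]
    exact ⟨fun h => h.1, fun h => ⟨h, fun d _ => hfree d⟩⟩
  have hJc : J.card = nfx σ := by
    unfold nfx
    exact (Nat.subtype_card J hJ').symm
  obtain ⟨-, hY2, hY3, -⟩ := hYF1 V G σ hinv
  have hodd := (hEQA V (ZMod 2) G (th σ) ⟨1, by simp⟩ hY2).1 hN3
  obtain ⟨τ₀, hτ1, hτ2, -⟩ := (Nat.card_pos_iff.1 hodd.pos).1.some
  have hI : Inv σ τ₀ := (hY3 τ₀).1 hτ2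
  have hc := hcount τ₀ hτ1 hI 3
  have hset : Nat.card {τ : G.Dart → G.Dart // IsTS τ ∧ Inv σ τ ∧
      (∀ d, sd σ d = d → τ d = τ₀ d) ∧ gav τ (fun d => sd σ d = d) = 3}
      = Nat.card {τ : G.Dart → G.Dart // IsTS τ ∧ (∀ a, Inv (th σ a) τ) ∧
        gav τ (fun _ => False) = 3} := by
    have hQ : (fun d : G.Dart => sd σ d = d) = (fun _ => False) :=
      funext fun d => propext ⟨fun h => hfree d h, False.elim⟩
    refine Nat.card_congr (Equiv.subtypeEquivRight fun τ => ?_)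
    rw [hQ, hY3]
    exact ⟨fun h => ⟨h.1, h.2.1, h.2.2.2⟩, fun h => ⟨h.1, h.2.1, fun d hd => absurd hd (hfree d),
      h.2.2⟩⟩
  have hcoef : (B2 (R.toList.map l0) C (J.image l0) ∅ e α).coeff 3 ≠ 0 := by
    rw [← hc, hset]
    obtain ⟨m, hm⟩ := hodd
    rw [hm]
    have h2 : ((2 * m + 1 : ℕ) : ZMod 2) = 1 := by
      push_cast
      rw [show (2 : ZMod 2) = 0 from rfl, zero_mul, zero_add]
    rw [h2]
    exact one_ne_zero
  have hev := (hEVB (V × Fin 3) (R.toList.map l0) C (J.image l0) ∅ e α hAdm).1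
  rw [Finset.card_empty, add_zero] at hev
  have hev3 := hEV3 (V × Fin 3) (R.toList.map l0) C (J.image l0) e α hAdm
  have hJi : (J.image l0).card = J.card := Finset.card_image_of_injective J IV0_l0
  have hRl : (R.toList.map l0).length = R.card := by
    rw [List.length_map, Finset.length_toList]
  rw [hJi, hRl] at hev3
  have hexc : ¬ (Fintype.card V = 7 ∧ J.card = 3) := fun h =>
    hnt (IV0_exc V G σ h4 h.1 hfree J hJ' h.2)
  by_contra hcon
  refine hcoef (hev3 ?_)
  obtain ⟨i, hi⟩ := hev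
  rw [← hJc, ← hCn] at hcon
  rw [← hJc] at hRn
  omega

end Pool.Agent.SYM
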