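import Pool.Agent.helper5.SYM.SpecA

/-!
# Row sy:WT (MP_45d809_mp): functions invariant under a translation
-/

set_option autoImplicit false

namespace Pool.Agent.SYM
open Finset CT Polynomial

theorem WT_nat {A : Type} [AddCommGroup A] (h : A) (f : A → Bool) (hf : ∀ g, f (g + h) = f g) :
    ∀ (n : ℕ) (g : A), f (g + n • h) = f g := by
  intro n
  induction n with
  | zero => intro g; rw [zero_smul, add_zero]
  | succ n ih => intro g; rw [add_smul, one_smul, ← add_assoc, hf, ih]

theorem WT_int {A : Type} [AddCommGroup A] (h : A) (f : A → Bool) (hf : ∀ g, f (g + h) = f g)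
    (n : ℤ) (g : A) : f (g + n • h) = f g := by
  rcases Int.eq_nat_or_neg n with ⟨m, rfl | rfl⟩
  · rw [natCast_zsmul]
    exact WT_nat h f hf m g
  · rw [neg_smul, natCast_zsmul]
    have h1 := WT_nat h f hf m (g + -(m • h))
    rw [neg_add_cancel_right] at h1
    exact h1.symm

/-- the invariant functions are the functions on the quotient -/
def WT_equiv {A : Type} [AddCommGroup A] (h : A) :
    {f : A → Bool // ∀ g, f (g + h) = f g} ≃ (A ⧸ AddSubgroup.zmultiples h → Bool) where
  toFun f := fun q => Quotient.liftOn' q f.1 (by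
    intro a b hab
    rw [QuotientAddGroup.leftRel_apply] at hab
    obtain ⟨n, hn⟩ := AddSubgroup.mem_zmultiples_iff.1 hab
    have h1 : b = a + n • h := by rw [hn, add_neg_cancel_left]
    rw [h1, WT_int h f.1 f.2])
  invFun F := ⟨fun a => F (QuotientAddGroup.mk a), fun g => by
    show F (QuotientAddGroup.mk (g + h)) = F (QuotientAddGroup.mk g)
    have h1 : (QuotientAddGroup.mk (g + h) : A ⧸ AddSubgroup.zmultiples h)
        = QuotientAddGroup.mk g := by
      rw [QuotientAddGroup.eq]
      have h2 : -(g + h) + g = -h := by abel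
      rw [h2]
      exact AddSubgroup.neg_mem _ (AddSubgroup.mem_zmultiples h)
    rw [h1]⟩
  left_inv f := rfl
  right_inv F := by
    funext q
    induction q using QuotientAddGroup.induction_on with
    | H a => rfl

theorem WT : WT_stmt := by
  intro A _ _ h
  have h1 : Nat.card A = Nat.card (A ⧸ AddSubgroup.zmultiples h) * addOrderOf h := by
    rw [AddSubgroup.card_eq_card_quotient_mul_card_addSubgroup (AddSubgroup.zmultiples h),
      Nat.card_zmultiples]
  have hpos : 0 < addOrderOf h := addOrderOf_pos h
  have h2 : wA h = Nat.card (A ⧸ AddSubgroup.zmultiples h) := by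
    unfold wA
    rw [h1, Nat.mul_div_cancel _ hpos]
  refine ⟨?_, ?_⟩
  · rw [Nat.card_congr (WT_equiv h), Nat.card_fun, h2, Nat.card_eq_fintype_card, Fintype.card_bool]
  · rw [h2]
    exact Nat.card_pos

end Pool.Agent.SYM
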